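import Pool.Agent.Helper75.CR.NullFree

/-!
# Project CR, module R1: periodic varieties without nontrivial null algebras and without `B2` are completely regular

`B2` is the five element Brandt semigroup `{a, a*, aa*, a*a, 0}`, `a a = 0`, with its inverse operation as involution.
-/

set_option autoImplicit false

namespace Pool.Agent.Helper75.CR

open Helper1.IM

/-! ## The Brandt semigroup -/

/-- Carrier of `B2`: zero and the four matrix units `(i, j)`. -/
structure C5 where
  val : Option (Bool × Bool)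

/-- Product of matrix units: `(i, j) (k, l) = (i, l)` if `j = k` and zero otherwise. -/
def mul5 (p q : Option (Bool × Bool)) : Option (Bool × Bool) :=
  match p, q with
  | some (i, j), some (k, l) => if j = k then some (i, l) else none
  | _, _ => none

/-- Transposition of matrix units. -/
def star5 (p : Option (Bool × Bool)) : Option (Bool × Bool) :=
  match p with
  | some (i, j) => some (j, i)
  | none => none

theorem mul5_assoc (p q r : Option (Bool × Bool)) : mul5 (mul5 p q) r = mul5 p (mul5 q r) := by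
  revert p q r; decide

theorem star5_star5 (p : Option (Bool × Bool)) : star5 (star5 p) = p := by revert p; decide

theorem star5_mul5 (p q : Option (Bool × Bool)) : star5 (mul5 p q) = mul5 (star5 q) (star5 p) := by
  revert p q; decide

theorem C5.ext' {p q : C5} (h : p.val = q.val) : p = q := by cases p; cases q; cases h; rfl

instance sg5 : Semigroup C5 where
  mul p q := ⟨mul5 p.val q.val⟩
  mul_assoc p q r := C5.ext' (mul5_assoc p.val q.val r.val)

instance sm5 : StarMul C5 where
  star p := ⟨star5 p.val⟩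
  star_involutive p := C5.ext' (star5_star5 p.val)
  star_mul p q := C5.ext' (star5_mul5 p.val q.val)

/-- The five element Brandt semigroup: zero `none` and the matrix units `some (i, j)`, the involution is the transposition. -/
def B2 : InvSg where
  carrier := C5
  ne := ⟨⟨none⟩⟩

/-! ## Powers of words -/

/-- `y` repeated `k` times. -/
def rp (y : Wd) : ℕ → Wd
  | 0 => []
  | k + 1 => y ++ rp y k

theorem rp_add (y : Wd) (k l : ℕ) : rp y (k + l) = rp y k ++ rp y l := by
  induction k with
  | zero => simp [rp]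
  | succ k ih => rw [Nat.succ_add]; simp [rp, ih]

theorem rp_succ' (y : Wd) (k : ℕ) : rp y (k + 1) = rp y k ++ y := by rw [rp_add]; simp [rp]

theorem sb_rep (y : Wd) (k : ℕ) : sb (fun _ => y) (List.replicate k (X 0)) = rp y k := by
  induction k with
  | zero => rfl
  | succ k ih => rw [List.replicate_succ, sb_X, ih]; rfl

/-- `θ` is periodic: some power `y^K` is idempotent, for all words `y`. -/
theorem per_R1 (θ : FIC) (h : ∃ m n : ℕ, 1 ≤ m ∧ 1 ≤ n ∧ θ.r (List.replicate m (X 0)) (List.replicate (m + n) (X 0))) :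
    ∃ K, 1 ≤ K ∧ ∀ y : Wd, y ≠ [] → θ.r (rp y K ++ rp y K) (rp y K) := by
  obtain ⟨m, n, hm, hn, hr⟩ := h
  refine ⟨m * n, Nat.mul_pos hm hn, fun y hy => ?_⟩
  have h1 : θ.r (rp y m) (rp y (m + n)) := by
    have := θ.sub' (fun _ => y) (fun _ => hy) hr
    rwa [sb_rep, sb_rep] at this
  have h2 : ∀ j, θ.r (rp y m) (rp y (m + n * j)) := by
    intro j
    induction j with
    | zero => exact θ.refl' _
    | succ j ih =>
      have h3 : m + n * (j + 1) = (m + n) + n * j := by ring
      have h4 := θ.mulR (rp y (n * j)) h1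
      rw [← rp_add, ← rp_add] at h4
      rw [h3]
      exact θ.trans' ih h4
  have hK : m ≤ m * n := Nat.le_mul_of_pos_right m hn
  obtain ⟨c, hc⟩ := Nat.exists_eq_add_of_le hK
  have h5 := θ.mulR (rp y c) (h2 m)
  rw [← rp_add, ← rp_add, ← hc] at h5
  have h6 : m + n * m + c = m * n + m * n := by rw [hc]; ring_nf; nlinarith [hc]
  rw [h6, rp_add] at h5
  exact θ.symm' h5

/-- Iteration of `x = p x z`. -/
theorem iter_R1 (θ : FIC) {x p z : Wd} (h : θ.r x (p ++ x ++ z)) (k : ℕ) : θ.r x (rp p k ++ x ++ rp z k) := by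
  induction k with
  | zero => simpa [rp] using θ.refl' x
  | succ k ih =>
    have h1 := θ.mul' (rp p k) (rp z k) h
    have h2 : rp p k ++ (p ++ x ++ z) ++ rp z k = rp p (k + 1) ++ x ++ rp z (k + 1) := by
      rw [rp_succ' p k]; simp [rp]
    rw [h2] at h1
    exact θ.trans' ih h1

/-- Stability: `x = p x x q` gives complete regularity. -/
theorem crf_of_XX (θ : FIC) {K : ℕ} (hK : 1 ≤ K) (hper : ∀ y : Wd, y ≠ [] → θ.r (rp y K ++ rp y K) (rp y K)) {p q : Wd}
    (h : θ.r [X 0] (p ++ [X 0, X 0] ++ q)) : CRF θ := by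
  obtain ⟨k, rfl⟩ : ∃ k, K = k + 1 := ⟨K - 1, by omega⟩
  constructor
  · have h1 : θ.r [X 0] (p ++ [X 0] ++ ([X 0] ++ q)) := by simpa using h
    have h2 := iter_R1 θ h1 (k + 1)
    have h3 := hper ([X 0] ++ q) (by simp)
    have h4 : θ.r ([X 0] ++ rp ([X 0] ++ q) (k + 1)) [X 0] := by
      have h5 := θ.mulR (rp ([X 0] ++ q) (k + 1)) h2
      have h6 := θ.mulL (rp p (k + 1) ++ [X 0]) h3
      have h7 : rp p (k + 1) ++ [X 0] ++ rp ([X 0] ++ q) (k + 1) ++ rp ([X 0] ++ q) (k + 1) =
          rp p (k + 1) ++ [X 0] ++ (rp ([X 0] ++ q) (k + 1) ++ rp ([X 0] ++ q) (k + 1)) := by simp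
      rw [h7] at h5
      exact θ.trans' h5 (θ.trans' h6 (θ.symm' h2))
    refine ⟨q ++ rp ([X 0] ++ q) k, ?_⟩
    have h8 : [X 0] ++ rp ([X 0] ++ q) (k + 1) = [X 0, X 0] ++ (q ++ rp ([X 0] ++ q) k) := by simp [rp]
    rw [h8] at h4
    exact θ.symm' h4
  · have h1 : θ.r [X 0] ((p ++ [X 0]) ++ [X 0] ++ q) := by simpa using h
    have h2 := iter_R1 θ h1 (k + 1)
    have h3 := hper (p ++ [X 0]) (by simp)
    have h4 : θ.r (rp (p ++ [X 0]) (k + 1) ++ [X 0]) [X 0] := by
      have h5 := θ.mulL (rp (p ++ [X 0]) (k + 1)) h2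
      have h6 := θ.mulR ([X 0] ++ rp q (k + 1)) h3
      have h7 : rp (p ++ [X 0]) (k + 1) ++ (rp (p ++ [X 0]) (k + 1) ++ [X 0] ++ rp q (k + 1)) =
          rp (p ++ [X 0]) (k + 1) ++ rp (p ++ [X 0]) (k + 1) ++ ([X 0] ++ rp q (k + 1)) := by simp
      rw [h7] at h5
      have h8 : rp (p ++ [X 0]) (k + 1) ++ ([X 0] ++ rp q (k + 1)) = rp (p ++ [X 0]) (k + 1) ++ [X 0] ++ rp q (k + 1) := by simp
      rw [h8] at h6
      exact θ.trans' h5 (θ.trans' h6 (θ.symm' h2))
    refine ⟨rp (p ++ [X 0]) k ++ p, ?_⟩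
    have h8 : rp (p ++ [X 0]) (k + 1) ++ [X 0] = (rp (p ++ [X 0]) k ++ p) ++ [X 0, X 0] := by rw [rp_succ']; simp
    rw [h8] at h4
    exact θ.symm' h4

/-- Stability, both signs. -/
theorem crf_of_pair (θ : FIC) {K : ℕ} (hK : 1 ≤ K) (hper : ∀ y : Wd, y ≠ [] → θ.r (rp y K ++ rp y K) (rp y K)) {p q : Wd} (b : Bool)
    (h : θ.r [X 0] (p ++ [(0, b), (0, b)] ++ q)) : CRF θ := by
  cases b
  · exact crf_of_XX θ hK hper h
  · have h1 : θ.r [Y 0] (st q ++ [X 0, X 0] ++ st p) := by
      have h2 := θ.star' h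
      simpa [st_append, X, Y, fl, st] using h2
    have h2 := θ.mul' p ([Y 0] ++ q) h1
    have h3 : θ.r [X 0] (p ++ (st q ++ [X 0, X 0] ++ st p) ++ ([Y 0] ++ q)) := by
      refine θ.trans' h ?_
      have h4 : p ++ [(0, true), (0, true)] ++ q = p ++ [Y 0] ++ ([Y 0] ++ q) := by simp [Y]
      rw [h4]
      exact h2
    refine crf_of_XX θ hK hper (p := p ++ st q) (q := st p ++ ([Y 0] ++ q)) ?_
    simpa using h3

/-! ## Alternating words -/

/-- The alternating word of length `n` in `x, x*` starting with the sign `b`. -/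
def alt : Bool → ℕ → Wd
  | _, 0 => []
  | b, n + 1 => (0, b) :: alt (!b) n

theorem alt_add (b : Bool) (m n : ℕ) : alt b (m + n) = alt b m ++ alt (not^[m] b) n := by
  induction m generalizing b with
  | zero => simp [alt]
  | succ m ih =>
    rw [show m + 1 + n = (m + n) + 1 by ring]
    simp only [alt, List.cons_append, Function.iterate_succ_apply]
    rw [ih]

theorem alt_succ' (b : Bool) (n : ℕ) : alt b (n + 1) = alt b n ++ [(0, not^[n] b)] := by
  rw [alt_add]; simp [alt]

theorem not_iter_even (b : Bool) (j : ℕ) : not^[2 * j] b = b := by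
  induction j with
  | zero => rfl
  | succ j ih =>
    rw [show 2 * (j + 1) = 2 * j + 1 + 1 by ring, Function.iterate_succ_apply', Function.iterate_succ_apply', ih]
    simp

/-- Words in `x, x*`: two adjacent equal letters or alternating. -/
theorem dich_R1 (U : Wd) (h0 : ∀ a ∈ U, a.1 = 0) (hU : U ≠ []) :
    (∃ p q b, U = p ++ [(0, b), (0, b)] ++ q) ∨ ∃ b n, U = alt b (n + 1) := by
  induction U with
  | nil => exact absurd rfl hU
  | cons a U ih =>
    rcases a with ⟨i, s⟩
    have hi : i = 0 := h0 (i, s) (by simp)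
    subst hi
    by_cases hU' : U = []
    · subst hU'
      exact Or.inr ⟨s, 0, rfl⟩
    · rcases ih (fun a ha => h0 a (by simp [ha])) hU' with ⟨p, q, b, h⟩ | ⟨b, n, h⟩
      · left
        exact ⟨(0, s) :: p, q, b, by rw [h]; simp⟩
      · by_cases hb : b = s
        · left
          subst hb
          exact ⟨[], alt (!b) n, b, by rw [h]; simp [alt]⟩
        · right
          have hb' : b = !s := by cases b <;> cases s <;> simp_all
          subst hb'
          exact ⟨s, n + 1, by rw [h]; rfl⟩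

/-! ## Evaluation in `B2` -/

/-- Elements of `B2`. -/
def mk5 (p : Option (Bool × Bool)) : B2.carrier := (⟨p⟩ : C5)

/-- Elements of `B2` with an identity adjoined. -/
def wk5 (p : Option (Bool × Bool)) : WithOne B2.carrier := (mk5 p : WithOne B2.carrier)

theorem mk5_mul (p q : Option (Bool × Bool)) : mk5 p * mk5 q = mk5 (mul5 p q) := rfl

theorem wk5_mul (p q : Option (Bool × Bool)) : wk5 p * wk5 q = wk5 (mul5 p q) := by
  rw [wk5, wk5, ← WithOne.coe_mul, mk5_mul]; rfl

/-- The generator `a = (0, 1)`. -/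
def e0 : ℕ → B2.carrier := fun _ => mk5 (some (false, true))

/-- Value of a letter. -/
theorem evl_e0 (i : ℕ) (b : Bool) : ((evl B2 e0 (i, b) : B2.carrier) : WithOne B2.carrier) = wk5 (some (b, !b)) := by
  cases b <;> rfl

theorem alt_val (b : Bool) (n : ℕ) : V_V1 B2 e0 (alt b (n + 1)) = wk5 (some (b, !(not^[n] b))) := by
  induction n generalizing b with
  | zero =>
    have h : alt b (0 + 1) = [(0, b)] := rfl
    rw [h, V_cons_V1, V_nil_V1, mul_one, evl_e0]
    rfl
  | succ n ih =>
    have h : alt b (n + 1 + 1) = (0, b) :: alt (!b) (n + 1) := rfl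
    rw [h, V_cons_V1, ih, evl_e0, wk5_mul, Function.iterate_succ_apply]
    simp [mul5]

theorem wk5_cases (y : WithOne B2.carrier) : y = 1 ∨ ∃ p, y = wk5 p := by
  refine WithOne.cases_on y (Or.inl rfl) ?_
  intro x
  exact Or.inr ⟨C5.val x, rfl⟩

theorem pair_val (p q : Wd) (b : Bool) : V_V1 B2 e0 (p ++ [(0, b), (0, b)] ++ q) = wk5 none := by
  have h1 : V_V1 B2 e0 [(0, b), (0, b)] = wk5 none := by
    rw [V_cons_V1, V_cons_V1, V_nil_V1, mul_one, evl_e0, wk5_mul]
    cases b <;> rfl
  rw [V_append_V1, V_append_V1, h1]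
  have h2 : ∀ y : WithOne B2.carrier, y * wk5 none = wk5 none := by
    intro y
    rcases wk5_cases y with rfl | ⟨r, rfl⟩
    · rw [one_mul]
    · rw [wk5_mul]
      rcases r with _ | ⟨i, j⟩ <;> rfl
  have h3 : ∀ y : WithOne B2.carrier, wk5 none * y = wk5 none := by
    intro y
    rcases wk5_cases y with rfl | ⟨r, rfl⟩
    · rw [mul_one]
    · rw [wk5_mul]
      rfl
  rw [h2, h3]

/-- Words representing the elements of `B2`. -/
def rep5 : Option (Bool × Bool) → Wd
  | none => [X 0, X 0]
  | some (false, false) => [X 0, Y 0]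
  | some (false, true) => [X 0]
  | some (true, false) => [Y 0]
  | some (true, true) => [Y 0, X 0]

theorem rep5_ne (p : Option (Bool × Bool)) : rep5 p ≠ [] := by
  rcases p with _ | ⟨i, j⟩
  · simp [rep5]
  · cases i <;> cases j <;> simp [rep5]

theorem rep5_zero (p : Option (Bool × Bool)) : ∀ a ∈ rep5 p, a.1 = 0 := by
  rcases p with _ | ⟨i, j⟩
  · simp [rep5, X]
  · cases i <;> cases j <;> simp [rep5, X, Y]

theorem rep5_val (p : Option (Bool × Bool)) : V_V1 B2 e0 (rep5 p) = wk5 p := by
  rcases p with _ | ⟨i, j⟩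
  · exact pair_val [] [] false
  · cases i <;> cases j
    · exact alt_val false 1
    · exact alt_val false 0
    · exact alt_val true 0
    · exact alt_val true 1

theorem sb_zero_R1 (f : ℕ → Wd) (hf : ∀ i, ∀ a ∈ f i, a.1 = 0) (u : Wd) : ∀ a ∈ sb f u, a.1 = 0 := by
  induction u with
  | nil => simp
  | cons c u ih =>
    intro a ha
    rw [sb_cons, List.mem_append] at ha
    rcases ha with ha | ha
    · split_ifs at ha
      · simp only [st, List.mem_reverse, List.mem_map] at ha
        obtain ⟨d, hd, rfl⟩ := ha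
        exact hf _ d hd
      · exact hf _ a ha
    · exact ih a ha

/-! ## The main argument -/

/-- A relation between an alternating word and `W` gives `x = p0 (0, !b) W (0, !last) q0`. -/
theorem ext_R1 (θ : FIC) {k : ℕ} (hk : 1 ≤ k) (hx : θ.r [X 0] (alt false (2 * k + 1))) (b : Bool) (n : ℕ) (W : Wd)
    (h : θ.r (alt b (n + 1)) W) : ∃ p0 q0 : Wd, θ.r [X 0] (p0 ++ [(0, !b)] ++ W ++ [(0, !(not^[n] b))] ++ q0) := by
  have hx' : ∀ j, θ.r [X 0] (alt false (2 * (k * j) + 1)) := by
    intro j
    induction j with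
    | zero => exact θ.refl' _
    | succ j ih =>
      have h1 : alt false (2 * (k * (j + 1)) + 1) = alt false (2 * (k * j)) ++ alt false (2 * k + 1) := by
        rw [show 2 * (k * (j + 1)) + 1 = 2 * (k * j) + (2 * k + 1) by ring, alt_add, not_iter_even]
      have h2 : alt false (2 * (k * j) + 1) = alt false (2 * (k * j)) ++ [X 0] := by
        rw [alt_succ', not_iter_even]; rfl
      rw [h1]
      rw [h2] at ih
      exact θ.trans' ih (θ.mulL _ hx)
  obtain ⟨a, ha1, ha2⟩ : ∃ a : ℕ, not^[a + 1] false = b ∧ a ≤ 1 := by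
    cases b
    · exact ⟨1, rfl, le_rfl⟩
    · exact ⟨0, rfl, by omega⟩
  have ha3 : not^[a] false = !b := by
    rw [← ha1, Function.iterate_succ_apply']; simp
  obtain ⟨c, hc⟩ : ∃ c, 2 * (k * (a + n + 3)) + 1 = (a + 1) + (n + 1) + (c + 1) := by
    have h1 : a + n + 3 ≤ k * (a + n + 3) := Nat.le_mul_of_pos_left _ hk
    exact ⟨2 * (k * (a + n + 3)) + 1 - ((a + 1) + (n + 1) + 1), by omega⟩
  have h1 := hx' (a + n + 3)
  rw [hc, alt_add, alt_add] at h1
  have h2 : not^[a + 1 + (n + 1)] false = !(not^[n] b) := by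
    rw [show a + 1 + (n + 1) = (n + 1) + (a + 1) by ring, Function.iterate_add_apply, ha1, Function.iterate_succ_apply']
  rw [h2, ha1, alt_succ' false a, ha3] at h1
  refine ⟨alt false a, alt (!!(not^[n] b)) c, ?_⟩
  refine θ.trans' h1 ?_
  have h3 := θ.mul' (alt false a ++ [(0, !b)]) (alt (!(not^[n] b)) (c + 1)) h
  have h4 : alt false a ++ [(0, !b)] ++ W ++ alt (!(not^[n] b)) (c + 1) =
      alt false a ++ [(0, !b)] ++ W ++ [(0, !(not^[n] b))] ++ alt (!!(not^[n] b)) c := by simp [alt]
  rw [h4] at h3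
  exact h3

/-- `B2` satisfies the identities of `θ` if `x = (x x*)^k x`, `θ` is periodic and not completely regular. -/
theorem b2_mem (θ : FIC) {K : ℕ} (hK : 1 ≤ K) (hper : ∀ y : Wd, y ≠ [] → θ.r (rp y K ++ rp y K) (rp y K)) {k : ℕ} (hk : 1 ≤ k)
    (hx : θ.r [X 0] (alt false (2 * k + 1))) (hc : ¬ CRF θ) : B2 ∈ Md θ := by
  intro u v huv
  rw [Id_iff_V1]
  refine ⟨⟨fun hu => θ.ne' huv hu, fun hv => θ.ne' (θ.symm' huv) hv⟩, ?_⟩
  intro A hA e
  have hA' : A = B2 := hA
  subst hA'
  by_cases hu : u = []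
  · have hv : v = [] := θ.ne' huv hu
    rw [hu, hv]
  have hv : v ≠ [] := fun h => hu (θ.ne' (θ.symm' huv) h)
  let f : ℕ → Wd := fun i => rep5 (C5.val (e i))
  have hf : ∀ i, f i ≠ [] := fun i => rep5_ne _
  have hval : ∀ w : Wd, V_V1 B2 e0 (sb f w) = V_V1 B2 e w := by
    intro w
    exact V_sb_V1 B2 e0 f e (fun i => rep5_val _) w
  have key : ∀ U W : Wd, U ≠ [] → W ≠ [] → (∀ a ∈ U, a.1 = 0) → (∀ a ∈ W, a.1 = 0) → θ.r U W → V_V1 B2 e0 U = V_V1 B2 e0 W := by
    intro U W hU hW hU0 hW0 hUW
    rcases dich_R1 U hU0 hU with ⟨p, q, b, hp⟩ | ⟨b, n, hb⟩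
    · rcases dich_R1 W hW0 hW with ⟨p', q', b', hp'⟩ | ⟨b', n', hb'⟩
      · rw [hp, hp', pair_val, pair_val]
      · exfalso
        apply hc
        rw [hb', hp] at hUW
        obtain ⟨p0, q0, h1⟩ := ext_R1 θ hk hx b' n' _ (θ.symm' hUW)
        refine crf_of_pair θ hK hper (p := p0 ++ [(0, !b')] ++ p) (q := q ++ [(0, !(not^[n'] b'))] ++ q0) b ?_
        simpa using h1
    · rcases dich_R1 W hW0 hW with ⟨p', q', b', hp'⟩ | ⟨b', n', hb'⟩
      · exfalso
        apply hc
        rw [hb, hp'] at hUW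
        obtain ⟨p0, q0, h1⟩ := ext_R1 θ hk hx b n _ hUW
        refine crf_of_pair θ hK hper (p := p0 ++ [(0, !b)] ++ p') (q := q' ++ [(0, !(not^[n] b))] ++ q0) b' ?_
        simpa using h1
      · rw [hb, hb'] at hUW
        have e1 : b' = b := by
          by_contra hne
          apply hc
          have hne' : (!b) = b' := by cases b <;> cases b' <;> simp_all
          obtain ⟨p0, q0, h1⟩ := ext_R1 θ hk hx b n _ hUW
          refine crf_of_pair θ hK hper (p := p0) (q := alt (!b') n' ++ [(0, !(not^[n] b))] ++ q0) b' ?_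
          rw [hne'] at h1
          simpa [alt] using h1
        have e2 : not^[n'] b' = not^[n] b := by
          by_contra hne
          apply hc
          have hne' : (!(not^[n] b)) = not^[n'] b' := by
            revert hne
            generalize not^[n] b = s
            generalize not^[n'] b' = t
            cases s <;> cases t <;> simp
          obtain ⟨p0, q0, h1⟩ := ext_R1 θ hk hx b n _ hUW
          refine crf_of_pair θ hK hper (p := p0 ++ [(0, !b)] ++ alt b' n') (q := q0) (not^[n'] b') ?_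
          rw [hne', alt_succ'] at h1
          simpa using h1
        rw [hb, hb', alt_val, alt_val, e1, ← e2, e1]
  have h1 := key (sb f u) (sb f v) (sb_ne_nil f hf u hu) (sb_ne_nil f hf v hv) (sb_zero_R1 f (fun i => rep5_zero _) u)
    (sb_zero_R1 f (fun i => rep5_zero _) v) (θ.sub' f hf huv)
  rwa [hval, hval] at h1

/-- Varieties without nontrivial null algebras: `x` is equal to a word of length at least two in `x, x*`. -/
theorem long_R1 (θ : FIC) (hN : ¬ HasNull (Md θ)) : ∃ w : Wd, (∀ a ∈ w, a.1 = 0) ∧ 2 ≤ w.length ∧ θ.r [X 0] w := by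
  by_contra hcon
  apply hN
  have hno : ∀ a b c : Lt, ∀ v : Wd, ¬ θ.r [a] (b :: c :: v) := by
    intro a b c v hr
    apply hcon
    let f : ℕ → Wd := fun _ => if a.2 then [Y 0] else [X 0]
    have hf : ∀ i, f i ≠ [] := by
      intro i
      simp only [f]
      split <;> simp
    have hf0 : ∀ i, ∀ d ∈ f i, d.1 = 0 := by
      intro i d hd
      simp only [f] at hd
      split at hd <;> simp at hd <;> rw [hd] <;> rfl
    have hfa : sb f [a] = [X 0] := by
      rw [sb_single]
      simp only [f]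
      rcases a with ⟨i, s⟩
      cases s <;> simp [st, fl, X, Y]
    refine ⟨sb f (b :: c :: v), sb_zero_R1 f hf0 _, ?_, ?_⟩
    · exact le_trans (by simp) (length_sb_ge f hf (b :: c :: v))
    · have := θ.sub' f hf hr
      rwa [hfa] at this
  have hno2 : ∀ a b : Lt, θ.r [a] [b] → a.1 = b.1 := by
    intro a b hr
    by_contra hne
    let f : ℕ → Wd := fun i => if i = b.1 then [X 0, X 0] else [X 0]
    have hf : ∀ i, f i ≠ [] := by
      intro i
      simp only [f]
      split <;> simp
    have h1 := θ.sub' f hf hr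
    have h2 : ∃ s, sb f [a] = [(0, s)] := by
      rw [sb_single]
      rcases a with ⟨i, s⟩
      have hi : ¬ i = b.1 := hne
      cases s
      · exact ⟨false, by simp [f, hi, X]⟩
      · exact ⟨true, by simp [f, hi, X, st, fl]⟩
    have h3 : ∃ s, sb f [b] = [(0, s), (0, s)] := by
      rw [sb_single]
      rcases b with ⟨i, s⟩
      cases s
      · exact ⟨false, by simp [f, X]⟩
      · exact ⟨true, by simp [f, X, st, fl]⟩
    obtain ⟨s, h2⟩ := h2
    obtain ⟨t, h3⟩ := h3
    rw [h2, h3] at h1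
    exact hno _ _ _ _ h1
  refine ⟨N2, ?_, fun a b c d => rfl, (⟨false⟩ : C2), (⟨true⟩ : C2), ?_⟩
  · intro u v huv
    refine ⟨⟨fun hu => θ.ne' huv hu, fun hv => θ.ne' (θ.symm' huv) hv⟩, ?_⟩
    intro A hA e a b u' v' hu hv
    have hA' : A = N2 := hA
    subst hA'
    subst hu
    subst hv
    rcases u' with _ | ⟨c, u'⟩
    · rcases v' with _ | ⟨d, v'⟩
      · have hab := hno2 _ _ huv
        have h3 : ∀ s : Lt, evl N2 e s = e s.1 := by
          intro s
          rcases s with ⟨i, t⟩
          cases t <;> rfl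
        change evl N2 e a = evl N2 e b
        rw [h3, h3, hab]
      · exact absurd huv (hno _ _ _ _)
    · rcases v' with _ | ⟨d, v'⟩
      · exact absurd (θ.symm' huv) (hno _ _ _ _)
      · rw [evr_N2, evr_N2]
  · intro h1
    have h2 := congrArg C2.val h1
    simp at h2

/-- MODULE R1. A periodic variety without nontrivial null algebras and without `B2` is completely regular. -/
def StR1 : Prop := ∀ θ : FIC, ¬ HasNull (Md θ) → B2 ∉ Md θ →
  (∃ m n : ℕ, 1 ≤ m ∧ 1 ≤ n ∧ θ.r (List.replicate m (X 0)) (List.replicate (m + n) (X 0))) → CRF θ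

theorem hR1 : StR1 := by
  intro θ hN hB hP
  by_contra hc
  obtain ⟨K, hK, hper⟩ := per_R1 θ hP
  obtain ⟨w, hw0, hw2, hxw⟩ := long_R1 θ hN
  have hwne : w ≠ [] := by
    intro h
    rw [h] at hw2
    simp at hw2
  rcases dich_R1 w hw0 hwne with ⟨p, q, b, hp⟩ | ⟨b, n, hb⟩
  · rw [hp] at hxw
    exact hc (crf_of_pair θ hK hper b hxw)
  · obtain ⟨n, rfl⟩ : ∃ n', n = n' + 1 := by
      refine ⟨n - 1, ?_⟩
      rcases n with _ | n
      · rw [hb] at hw2
        simp [alt] at hw2
      · rfl
    rw [hb] at hxw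
    have hyw : θ.r [Y 0] (st (alt b (n + 1 + 1))) := by
      have := θ.star' hxw
      simpa [st] using this
    have hst1 : ∃ t, st (alt b (n + 1 + 1)) = t ++ [(0, !b)] := by
      refine ⟨st (alt (!b) (n + 1)), ?_⟩
      change st ((0, b) :: alt (!b) (n + 1)) = _
      rw [st_cons]
      rfl
    have hst2 : ∃ t, st (alt b (n + 1 + 1)) = (0, !(not^[n + 1] b)) :: t := by
      refine ⟨st (alt b (n + 1)), ?_⟩
      rw [alt_succ', st_append]
      rfl
    cases hl : not^[n + 1] b
    · cases b
      · -- first and last letter `x`: even number of flips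
        have hev : ∃ k, n + 1 = 2 * k := by
          rcases Nat.even_or_odd' (n + 1) with ⟨k, hk | hk⟩
          · exact ⟨k, hk⟩
          · exfalso
            rw [hk, Function.iterate_succ_apply', not_iter_even] at hl
            simp at hl
        obtain ⟨k, hk⟩ := hev
        rw [hk] at hxw
        exact hB (b2_mem θ hK hper (by omega) hxw hc)
      · -- first letter `x*`
        apply hc
        obtain ⟨t, ht⟩ := hst1
        have h1 : alt true (n + 1 + 1) = [Y 0] ++ (X 0 :: alt true n) := rfl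
        rw [ht] at hyw
        rw [h1] at hxw
        have h2 := θ.trans' hxw (θ.mulR (X 0 :: alt true n) hyw)
        refine crf_of_pair θ hK hper (p := t) (q := alt true n) false ?_
        simpa [X] using h2
    · -- last letter `x*`
      apply hc
      obtain ⟨t, ht⟩ := hst2
      rw [hl] at ht
      have h1 : alt b (n + 1 + 1) = alt b n ++ [(0, not^[n] b)] ++ [Y 0] := by
        rw [alt_succ' b (n + 1), hl, alt_succ' b n]; rfl
      have h3 : not^[n] b = false := by
        rw [Function.iterate_succ_apply'] at hl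
        simpa using hl
      rw [ht] at hyw
      rw [h1, h3] at hxw
      have h2 := θ.trans' hxw (θ.mulL (alt b n ++ [(0, false)]) hyw)
      refine crf_of_pair θ hK hper (p := alt b n) (q := t) false ?_
      simpa using h2

end Pool.Agent.Helper75.CR
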